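import Pool.Agent.H397Z.SecCone

/-!
For every `n ≥ 4` (in particular every odd `n ≥ 5`), the cone of nonnegative scalar curvature is
the only Ricci flow invariant curvature cone containing all operators with nonnegative sectional
curvature.
-/

open Pool.Agent.H397Z.Curv in
theorem Pool.Agent.Results.MP_3d035a_gt.OnlyScal.result (n : ℕ) (hn : 4 ≤ n)
    (C : Set (CurvOp n)) :
    (IsCurvCone C ∧ C ≠ Set.univ ∧ RFInvariant C ∧ ∀ R, SecNonneg R → R ∈ C) ↔
      C = {R | 0 ≤ scal R} :=
  main_iff hn C
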